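import Pool.Agent.helper39.FJ.SpecE

/-!
# Project tk (rows gk:XX of problem MP_3703a7_ag): specification, part N

Everything which does not depend on the definitions of project gj.

Every `XX_stmt` is proved in `Pool/Agent/<seat>/TK/XX.lean`: `import Pool.Agent.helper47.TK.SpecN`, `namespace Pool.Agent.TK`,
`theorem XX (h : YY_stmt) ... : XX_stmt`; hypotheses: any other statement of the project, not circularly (the uses are
named in the docstrings). Auxiliary lemmas are prefixed `XX_`. No sorry, no double quotes, no `congr!`, no `convert`.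

KE: a weak form of the theorem of Chebotarev for Kummer extensions, from the pole of the Dedekind zeta function.
KG: Jacobi sums of several characters and their valuations. KP: polynomials over `𝔽_p`. KM, KL: linear algebra.
-/

namespace Pool.Agent.TK

open Polynomial NumberField Pool.Agent.FJ Pool.Agent.HC Pool.Agent.SJ
open scoped NumberField Topology ComplexConjugate

noncomputable section

/-! ## KE. Primes of degree one at which a number is not an `l`-th power -/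

/-- the number of ideals of norm `n` -/
def nid (L : Type) [Field L] [NumberField L] (n : ℕ) : ℕ :=
  Nat.card {I : Ideal (𝓞 L) // Ideal.absNorm I = n}

/-- KE1: multiplicativity. `I ↦ (I + (m), I + (n))`, inverse `(J, J') ↦ J J'`. (For `N(I) = m n`: `m n ∈ I`
(`Ideal.absNorm_mem`), so `I = (I + (m)) (I + (n))`; every prime factor of `I + (m)` contains `m`, so `N(I + (m))` is a product
of primes dividing `m`; so the norms are `m` and `n`.) Or by unique factorisation. -/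
def KE1_stmt : Prop := ∀ (L : Type) [Field L] [NumberField L],
  nid L 1 = 1 ∧ ∀ m n : ℕ, 0 < m → 0 < n → m.Coprime n → nid L (m * n) = nid L m * nid L n

/-- KE2: an ideal of norm `p^k` is a product `∏ P^(e_P)` over the prime ideals `P` over `p`, at most `[L : ℚ]` many
(`Ideal.sum_ramification_inertia`, or: their product divides `(p)`, which has norm `p^[L:ℚ]`), `e_P ≤ k`. -/
def KE2_stmt : Prop := ∀ (L : Type) [Field L] [NumberField L] (p k : ℕ), p.Prime →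
  nid L (p ^ k) ≤ (k + 1) ^ Module.finrank ℚ L

/-- KE3: the zeta function on the real axis. `NumberField.tendsto_sub_one_mul_dedekindZeta_nhdsGT`,
`dedekindZeta_residue_pos`; summability: `LSeriesSummable_of_sum_norm_bigO_and_nonneg` and `Ideal.tendsto_norm_le_div_atTop₀`
(as in the Mathlib proof of the class number formula, file `NumberField/DedekindZeta.lean`). -/
def KE3_stmt : Prop := ∀ (L : Type) [Field L] [NumberField L],
  (∀ s : ℝ, 1 < s → Summable fun n : ℕ => (nid L n : ℝ) * (n : ℝ) ^ (-s)) ∧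
  ∃ κ : ℝ, 0 < κ ∧
    Filter.Tendsto (fun s : ℝ => (s - 1) * ∑' n : ℕ, (nid L n : ℝ) * (n : ℝ) ^ (-s)) (𝓝[>] 1) (𝓝 κ)

/-- KE4: pure analysis. `q = p^(-s) ≤ 1/2`; `x = ∑_(e ≥ 1) a_e q^e`; `0 ≤ x - a_1 q ≤ K q^2`, `0 ≤ x ≤ K q`,
`|log (1 + x) - x| ≤ x^2 / 2`, so the difference of the two terms is at most `K' p^(-2)`. -/
def KE4_stmt : Prop := ∀ d : ℕ, ∃ C : ℝ, ∀ a : ℕ → ℕ → ℕ, (∀ p, a p 0 = 1) →
  (∀ p e, a p e ≤ (e + 1) ^ d) → ∀ s : ℝ, 1 < s →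
  (∀ p : Nat.Primes, 1 ≤ ∑' e : ℕ, (a p e : ℝ) * ((((p : ℕ) : ℝ) ^ (-s)) ^ e)) ∧
  (Summable fun p : Nat.Primes => (a p 1 : ℝ) * ((p : ℕ) : ℝ) ^ (-s)) ∧
  (Summable fun p : Nat.Primes => Real.log (∑' e : ℕ, (a p e : ℝ) * ((((p : ℕ) : ℝ) ^ (-s)) ^ e))) ∧
  |∑' p : Nat.Primes, Real.log (∑' e : ℕ, (a p e : ℝ) * ((((p : ℕ) : ℝ) ^ (-s)) ^ e)) -
    ∑' p : Nat.Primes, (a p 1 : ℝ) * ((p : ℕ) : ℝ) ^ (-s)| ≤ C

/-- KE5: `∑_p a_p p^(-s) = - log (s - 1) + O(1)`. Euler product (`EulerProduct.eulerProduct_hasProd` for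
`n ↦ nid L n * n^(-s)`, KE1), KE2, KE4; the logarithm of `(s - 1) ∑ nid L n n^(-s)` is bounded near `1` (KE3). -/
def KE5_stmt : Prop := ∀ (L : Type) [Field L] [NumberField L], ∃ C δ : ℝ, 0 < δ ∧
  ∀ s : ℝ, 1 < s → s < 1 + δ →
    (Summable fun p : Nat.Primes => (nid L p : ℝ) * ((p : ℕ) : ℝ) ^ (-s)) ∧
    |∑' p : Nat.Primes, (nid L p : ℝ) * ((p : ℕ) : ℝ) ^ (-s) + Real.log (s - 1)| ≤ C

/-- KE6: splitting. `L' = L(β)`, `β^l = γ`, `X^l - γ` is irreducible over `L` (`X_pow_sub_C_irreducible_of_prime`). There is `D_0 > 0` with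
`D_0 𝓞_L' ⊂ 𝓞_L[β]` (`𝓞_L'` is finitely generated); `D = D_0 l N(γ)`. Let `N(I) = p`, `x^l - γ ∈ I`; `𝓞_L ⧸ I = 𝔽_p`; for
`i = 0, .., l - 1` there is a homomorphism `𝓞_L[β] → 𝔽_p`, `β ↦ z^i x` (`𝓞_L[β] = 𝓞_L[X]/(X^l - γ)`), a prime `Q` of `𝓞_L'` over its
kernel (lying over, integral extension), and `𝓞_L' ⧸ Q = 𝔽_p` since `D_0 α ∈ 𝓞_L[β]` and `D_0` is invertible modulo `p`. These
ideals `Q` of norm `p` are different (`β ≡ z^i x` modulo `Q`; `z^i x` are different modulo `I`, since `l γ` is a unit). -/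
def KE6_stmt : Prop := ∀ (L L' : Type) [Field L] [NumberField L] [Field L'] [NumberField L']
  [Algebra L L'] (l : ℕ) (γ z : 𝓞 L) (β : 𝓞 L'), l.Prime → IsPrimitiveRoot z l →
  β ^ l = algebraMap (𝓞 L) (𝓞 L') γ → Algebra.adjoin L {(β : L')} = ⊤ →
  (∀ x : L, x ^ l ≠ (γ : L)) → ∃ D : ℕ, 0 < D ∧ ∀ p : ℕ, p.Prime → ¬ p ∣ D →
    l * Nat.card {I : Ideal (𝓞 L) // Ideal.absNorm I = p ∧ ∃ x, x ^ l - γ ∈ I} ≤ nid L' p

/-- KE7: `γ` is not an `l`-th power modulo infinitely many primes of degree one. `L' = L(β)`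
(`AdjoinRoot (X^l - γ)`, a number field). Otherwise `l nid L p ≤ nid L' p` for almost all `p` (KE6); sum over `p`, KE5 for `L` and `L'`:
`l log (1 / (s - 1)) - C ≤ log (1 / (s - 1)) + C'` for `s → 1`. (Nat.card of `{I // N(I) = p}` is finite:
`Ideal.finite_setOf_absNorm_eq`.) Uses KE5, KE6. -/
def KE7_stmt : Prop := ∀ (L : Type) [Field L] [NumberField L] (l : ℕ) (γ z : 𝓞 L), l.Prime →
  IsPrimitiveRoot z l → (∀ x : L, x ^ l ≠ (γ : L)) → ∀ D : ℕ, 0 < D →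
  ∃ (p : ℕ) (P : Ideal (𝓞 L)), p.Prime ∧ ¬ p ∣ D ∧ Ideal.absNorm P = p ∧ ∀ x, x ^ l - γ ∉ P

/-- KE8: several numbers. Induction on `N` (for all `L`); `N = 0`: KE7. Step: `L' = L(β)`, `β^l = α_0`; `α_1, .., α_N` are independent in `L'`: if
`x^l = ∏_(i ≥ 1) α_i^(e_i)`, `x ∈ L'`, and `σ` is the automorphism `β ↦ z β` of `L'` over `L` then `σ x = z^k x`, so `x β^(-k)` is fixed by `σ` and lies
in `L`, and `∏_(i ≥ 1) α_i^(e_i) = α_0^k y^l`. A prime `P'` of `L'` for `α_1, .., α_N` has norm `p`; `P = P' ∩ 𝓞_L`, `𝓞_L ⧸ P = 𝓞_L' ⧸ P' = 𝔽_p`.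
Uses KE7. -/
def KE8_stmt : Prop := ∀ (N : ℕ) (L : Type) [Field L] [NumberField L] (l : ℕ) (z : 𝓞 L)
  (α : Fin (N + 1) → 𝓞 L), l.Prime → IsPrimitiveRoot z l → (∀ i, α i ≠ 0) →
  (∀ e : Fin (N + 1) → ℕ, (∃ x : L, x ^ l = ∏ i, (α i : L) ^ e i) → ∀ i, l ∣ e i) →
  ∀ D : ℕ, 0 < D → ∃ (p : ℕ) (P : Ideal (𝓞 L)), p.Prime ∧ ¬ p ∣ D ∧ Ideal.absNorm P = p ∧
    (∀ i : Fin N, ∃ x, x ^ l - α i.castSucc ∈ P) ∧ ∀ x, x ^ l - α (Fin.last N) ∉ P

/-- KE9: prescribed power residue symbols, up to a common factor `u`. `t_(i0)` prime to `l`, `c_i = - t_i / t_(i0)` modulo `l`,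
`δ_i = α_i α_(i0)^(c_i)`, `i ≠ i0`, and `α_(i0)` are independent; KE8 (with `D l ∏ N(α_i)`). `𝓞_L ⧸ P = 𝔽_p`, `z` has order `l` modulo `P`, so `l ∣ p - 1` and
`α_i^((p-1)/l) ≡ z^(s_i)`; `x ≠ 0` in `𝔽_p` is an `l`-th power iff `x^((p-1)/l) = 1`; so `s_i + c_i s_(i0) = 0`, `s_(i0) ≠ 0`: `s_i = u t_i`,
`u = s_(i0) / t_(i0)`. Uses KE8. -/
def KE9_stmt : Prop := ∀ (N : ℕ) (L : Type) [Field L] [NumberField L] (l : ℕ) (z : 𝓞 L)
  (α : Fin N → 𝓞 L) (t : Fin N → ℕ), l.Prime → IsPrimitiveRoot z l → (∀ i, α i ≠ 0) →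
  (∀ e : Fin N → ℕ, (∃ x : L, x ^ l = ∏ i, (α i : L) ^ e i) → ∀ i, l ∣ e i) →
  (∃ i, ¬ l ∣ t i) → ∀ D : ℕ, 0 < D → ∃ (p : ℕ) (P : Ideal (𝓞 L)) (u : ℕ), p.Prime ∧ ¬ p ∣ D ∧
    Ideal.absNorm P = p ∧ l ∣ p - 1 ∧ ¬ l ∣ u ∧ ∀ i, α i ^ ((p - 1) / l) - z ^ (u * t i) ∈ P

/-- KE10: Frobenius elements. Multiply the `α_i` by `l`-th powers of positive integers to make them integral; KE9 with `D M l ∏ N(α_i)`;
`FJ.E2` gives `O`, `σ`. If `b^l = α_i` then `σ b = z^s b` for some `s` (`σ` fixes `L`); `b ∈ O` (after multiplication by the integer), `rs O b ≠ 0`,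
and `rs(b)^p = rs(σ b)` gives `rs(z)^s = rs(b)^(p-1) = rs(α_i)^((p-1)/l) = rs(z)^(u t_i)`, `rs(z)` has order `l`. `M ∣ p - 1`: a primitive
`M`-th root of unity of `L` has order `M` in `(𝓞_L ⧸ P)ˣ` (`p` does not divide `M`). `CharP (rf O) p`: `p ∈ P`. Uses KE9, FJ.E2_stmt. -/
def KE10_stmt : Prop := ∀ (l : ℕ) (L : IntermediateField ℚ Om) [NumberField L] (z w : Om)
  (N M : ℕ) (α : Fin N → Om) (t : Fin N → ℕ), l.Prime → z ∈ L → IsPrimitiveRoot z l → w ∈ L →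
  0 < M → IsPrimitiveRoot w M → (∀ i, α i ∈ L ∧ α i ≠ 0) →
  (∀ e : Fin N → ℕ, (∃ x ∈ L, x ^ l = ∏ i, α i ^ e i) → ∀ i, l ∣ e i) →
  (∃ i, ¬ l ∣ t i) → ∀ D : ℕ, 0 < D →
  ∃ (p : ℕ) (_ : Fact p.Prime) (O : ValuationSubring Om) (σ : Om ≃ₐ[L] Om) (u : ℕ),
    IsFrobO O σ.toRingEquiv p ∧ CharP (rf O) p ∧ ((D : ℕ) : rf O) ≠ 0 ∧ M ∣ p - 1 ∧ l ∣ p - 1 ∧
    ¬ l ∣ u ∧ (∀ x ∈ L, x ∈ O → ∃ a : ℕ, ∃ y : O, (y : Om) = x ∧ rs O y = (a : rf O)) ∧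
    ∀ i, ∀ b : Om, b ^ l = α i → σ b = z ^ (u * t i) * b

/-! ## KG. Jacobi sums of several characters -/

/-- `∑ ∏ χ(w_j)^(m μ_j)` over the hyperplane `∑ λ_j w_j = 1` -/
def cJ {p : ℕ} [Fact p.Prime] (χ : MulChar (ZMod p) Om) {n : ℕ} (μ : Fin (n + 1) → ℕ)
    (lam : Fin (n + 1) → ZMod p) (m : ℕ) : Om :=
  ∑ w : Fin (n + 1) → ZMod p, if ∑ j, lam j * w j = 1 then ∏ j, χ (w j) ^ (m * μ j) else 0

/-- KG1: Gauss sums. Substitute `w_j / λ_j`: `cJ ∏ χ(λ_j)^(m μ_j) = J`, `J = ∑_(∑ w_j = 1) ∏ χ_j(w_j)`, `χ_j = χ^(m μ_j)`; and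
`∏ g(χ_j) = ∑_s ψ(s) ∑_(∑ w_j = s) ∏ χ_j(w_j)`; for `s ≠ 0` the inner sum is `(∏ χ_j)(s) J`; for `s = 0` it is zero (multiply
`w` by `c`, `(∏ χ_j)(c) ≠ 1`). -/
def KG1_stmt : Prop := ∀ (p : ℕ) [Fact p.Prime] (χ : MulChar (ZMod p) Om) (ψ : AddChar (ZMod p) Om)
  (n : ℕ) (μ : Fin (n + 1) → ℕ) (lam : Fin (n + 1) → ZMod p) (m : ℕ), 0 < m → (∀ j, 0 < μ j) →
  χ ^ (m * ∑ j, μ j) ≠ 1 → (∀ j, lam j ≠ 0) →
  cJ χ μ lam m * (∏ j, χ (lam j) ^ (m * μ j)) * gaussSum (χ ^ (m * ∑ j, μ j)) ψ =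
    ∏ j, gaussSum (χ ^ (m * μ j)) ψ

/-- KG2: absolute value. KG1 for `r` and `l - r` with a primitive `ψ` (exists: `ZMod` and a primitive `p`-th root of unity in `Om`) and
`gaussSum_mul_gaussSum_eq_card`: `g(φ) g(φ⁻¹) = φ(-1) p` for `φ ≠ 1`; the factors `φ(-1)` and `χ(λ_j)^(l μ_j) = 1` cancel. Uses KG1. -/
def KG2_stmt : Prop := ∀ (p l : ℕ) [Fact p.Prime] (χ : MulChar (ZMod p) Om) (n : ℕ)
  (μ : Fin (n + 1) → ℕ) (lam : Fin (n + 1) → ZMod p) (r : ℕ), l.Prime → orderOf χ = l →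
  (∀ j, 0 < μ j ∧ μ j < l) → ¬ l ∣ ∑ j, μ j → (∀ j, lam j ≠ 0) → 0 < r → r < l →
  cJ χ μ lam r * cJ χ μ lam (l - r) = (p : Om) ^ n

/-- `χ(a) ≡ a^α` modulo the maximal ideal of `O` -/
def IsTei (O : ValuationSubring Om) {p : ℕ} (α : ℕ) (χ : MulChar (ZMod p) Om) : Prop :=
  ∀ a : ZMod p, a ≠ 0 → ∃ y : O, (y : Om) = χ a ∧ rs O y = ((a.val : ℕ) : rf O) ^ α

/-- KG3: valuations of Gauss sums. `J(χ^a, χ^b) = p` times a unit for `0 < a, b`, `a + b < l` (`FJ.E6_stmt`: `x x' = p`, `x'` a unit; the sum over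
`Finset.Ico 2 p` is the Jacobi sum). `g(χ)^k = g(χ^k) ∏_(0 < i < k) J(χ, χ^i)` for `k < l` (`jacobiSum_mul_nontrivial`),
`g(χ)^l = χ(-1) p ∏_(0 < i < l - 1) J(χ, χ^i)` (`gaussSum_pow_eq_prod_jacobiSum`), so `g(χ)^l = p^(l-1)` times a unit, and
`g(χ^m)^l = p^((l-1) m - l (m-1)) = p^(l-m)` times a unit. Uses FJ.E6_stmt. -/
def KG3_stmt : Prop := ∀ (O : ValuationSubring Om) (p l α : ℕ) [Fact p.Prime] [CharP (rf O) p]
  (χ : MulChar (ZMod p) Om) (ψ : AddChar (ZMod p) Om), l.Prime → 2 < l → l * α = p - 1 →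
  orderOf χ = l → IsTei O α χ → ψ.IsPrimitive → ∀ m : ℕ, 0 < m → m < l →
  ∃ y : O, IsUnit y ∧ gaussSum (χ ^ m) ψ ^ l = (p : Om) ^ (l - m) * y

/-- KG4: valuations of the Jacobi sums `cJ` (the theorem of Stickelberger). KG1 to the power `l` with KG3 (`χ^k` depends on `k` modulo `l`):
`cJ^l = p^(h l)` times a unit of `O`; `cJ / p^h` is a unit since its `l`-th power is (`O` is integrally closed). `h ≥ 0`: if the right side were smaller,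
`cJ^l` would not be in `O` (`cJ ∈ O` as a sum of roots of unity); natural number subtraction is avoided by stating the sum.
Uses KG1, KG3. -/
def KG4_stmt : Prop := ∀ (O : ValuationSubring Om) (p l α : ℕ) [Fact p.Prime] [CharP (rf O) p]
  (χ : MulChar (ZMod p) Om) (n : ℕ) (μ : Fin (n + 1) → ℕ) (lam : Fin (n + 1) → ZMod p) (m : ℕ),
  l.Prime → 2 < l → l * α = p - 1 → orderOf χ = l → IsTei O α χ →
  (∀ j, 0 < μ j ∧ μ j < l) → ¬ l ∣ ∑ j, μ j → (∀ j, lam j ≠ 0) → 0 < m → m < l →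
  ∃ h : ℕ, h * l + ∑ j, (m * μ j) % l = n * l + (m * ∑ j, μ j) % l ∧
    ∃ y : O, IsUnit y ∧ cJ χ μ lam m = (p : Om) ^ h * y

/-! ## KP. Monic polynomials -/

/-- the monic polynomial of degree `k` with coefficients `c` -/
def gp {p k : ℕ} (c : Fin k → ZMod p) : (ZMod p)[X] := X ^ k + ∑ i : Fin k, C (c i) * X ^ (i : ℕ)

open Classical in
/-- the monic polynomials of degree `k` prime to `∏ (x - a_j)` -/
def Gd {p : ℕ} [Fact p.Prime] {n : ℕ} (a : Fin (n + 1) → ZMod p) (k : ℕ) :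
    Finset (Fin k → ZMod p) :=
  Finset.univ.filter fun c => ∀ j, (gp c).eval (a j) ≠ 0

/-- `1 / f_0'(a_j)`, `f_0 = ∏ (x - a_j)` -/
def lm {K : Type} [Field K] {n : ℕ} (a : Fin (n + 1) → K) (j : Fin (n + 1)) : K :=
  (∏ i ∈ Finset.univ.erase j, (a j - a i))⁻¹

/-- KP1: the number of these polynomials of degree at most `n`. `(c, g) ↦ (c g(a_j))_j` is a bijection of `𝔽_pˣ × ⋃ Gd` onto
`(𝔽_pˣ)^(n+1)` (interpolation by polynomials of degree at most `n`). -/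
def KP1_stmt : Prop := ∀ (p n : ℕ) [Fact p.Prime] (a : Fin (n + 1) → ZMod p), Function.Injective a →
  ∑ k ∈ Finset.range (n + 1), (Gd a k).card = (p - 1) ^ n

/-- KP2: Lagrange interpolation, the leading coefficient. -/
def KP2_stmt : Prop := ∀ (K : Type) [Field K] (n : ℕ) (a : Fin (n + 1) → K), Function.Injective a →
  (∀ G : K[X], G.Monic → G.natDegree = n → ∑ j, lm a j * G.eval (a j) = 1) ∧
  ∀ w : Fin (n + 1) → K, ∑ j, lm a j * w j = 1 → ∃ G : K[X], G.Monic ∧ G.natDegree = n ∧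
    ∀ j, G.eval (a j) = w j

open Classical in
/-- KP3: monic polynomials of degree `n` and the hyperplane. `c ↦ (g(a_j))_j` is injective (`g - g'` has degree less than `n + 1`)
with image the hyperplane (KP2). Uses KP2. -/
def KP3_stmt : Prop := ∀ (p n : ℕ) [Fact p.Prime] (a : Fin (n + 1) → ZMod p), Function.Injective a →
  ∀ (M : Type) [AddCommMonoid M] (F : (Fin (n + 1) → ZMod p) → M),
  ∑ c ∈ Gd a n, F (fun j => (gp c).eval (a j)) =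
    ∑ w : Fin (n + 1) → ZMod p, if ∑ j, lm a j * w j = 1 ∧ ∀ j, w j ≠ 0 then F w else 0

/-- KP4: THE POINTS LIE ON THE HYPERPLANE. `m = n - k`; `(-1)^m v_j^(p^m - 1) = ∏_(i < m) (a_j - u^(p^i))` since
`v_j^(p^m - 1) = ∏_(i < m) (v_j^(p-1))^(p^i)` and `(u - a_j)^(p^i) = u^(p^i) - a_j`; KP2 for `G = g ∏_(i < m) (X - u^(p^i))`.
Uses KP2. -/
def KP4_stmt : Prop := ∀ (K : Type) [Field K] (p n : ℕ) [Fact p.Prime] [CharP K p]
  (a : Fin (n + 1) → ZMod p), Function.Injective a → ∀ (k m : ℕ), k + m = n → ∀ c ∈ Gd a k,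
  ∀ (u : K) (v : Fin (n + 1) → K),
    (∀ j, v j ≠ 0 ∧ v j ^ (p - 1) = u - (ZMod.castHom (dvd_refl p) K) (a j)) →
    ∑ j, ((ZMod.castHom (dvd_refl p) K) (lm a j) / v j) *
      ((-1) ^ m * (ZMod.castHom (dvd_refl p) K) ((gp c).eval (a j)) * v j ^ p ^ m) = 1

/-! ## KM, KL. Linear algebra -/

/-- the operator `A` of the Kummer pairing: `(A d)_k = ∑_j κ_kj (d_k μ_j - μ_k d_j)` -/
def kA {K : Type} [Field K] {n : ℕ} (κ : Fin (n + 1) → Fin (n + 1) → K) (μ : Fin (n + 1) → K)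
    (d : Fin (n + 1) → K) (k : Fin (n + 1)) : K := ∑ j, κ k j * (d k * μ j - μ k * d j)

/-- KM1: for the symbols `κ_(j,j+1) = u` and `0` otherwise the operator is tridiagonal, the coefficient of `ε_(i+1)` in `A ε_i` is `- u μ_(i+1)`; so
`ε_0` is a cyclic vector. -/
def KM1_stmt : Prop := ∀ (K : Type) [Field K] (n : ℕ) (κ : Fin (n + 1) → Fin (n + 1) → K)
  (μ : Fin (n + 1) → K) (u : K), u ≠ 0 → (∀ j, μ j ≠ 0) →
  (∀ i j : Fin (n + 1), i ≠ j → κ i j = if (i : ℕ) + 1 = j ∨ (j : ℕ) + 1 = i then u else 0) →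
  ∀ S : Submodule K (Fin (n + 1) → K), Pi.single 0 1 ∈ S → (∀ d ∈ S, kA κ μ d ∈ S) → S = ⊤

/-- KL1: the determinant of a cyclic operator. The minimal polynomial has degree `dim V` (cyclic vector), divides `Q` and the characteristic polynomial,
so all three are equal; `LinearMap.det_eq_sign_charpoly_coeff`. -/
def KL1_stmt : Prop := ∀ (E V : Type) [Field E] [AddCommGroup V] [Module E V] [FiniteDimensional E V]
  (σ : V →ₗ[E] V) (Q : E[X]) (v : V), Q.Monic → Q.natDegree = Module.finrank E V →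
  aeval σ Q = 0 → (∀ S : Submodule E V, v ∈ S → (∀ s ∈ S, σ s ∈ S) → S = ⊤) →
  LinearMap.det σ = (-1) ^ Module.finrank E V * Q.coeff 0

/-- KL2: the `l`-th cyclotomic polynomial is irreducible over `ℚ_l` (Eisenstein: `cyclotomic_comp_X_add_one_isEisensteinAt` over `ℤ`; the same coefficients
over `ℤ_[l]`; Gauss). -/
def KL2_stmt : Prop := ∀ (l : ℕ) [Fact l.Prime], Irreducible (cyclotomic l ℚ_[l])

/-- `T` is a lattice of `V` -/
structure IsLat (l : ℕ) [Fact l.Prime] {V : Type} [AddCommGroup V] [Module ℚ_[l] V]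
    [Module ℤ_[l] V] [IsScalarTower ℤ_[l] ℚ_[l] V] (T : Submodule ℤ_[l] V) : Prop where
  fg : T.FG
  sp : ∀ v : V, ∃ k : ℕ, (l : ℚ_[l]) ^ k • v ∈ T

/-- KL3: Nakayama. `t = s + π t'` for all `t ∈ T`, iterated: `T = (T ∩ S) + π^k T`, so `T = (T ∩ S) + l T` and `T = T ∩ S`
(`Submodule.le_of_le_smul_of_le_jacobson_bot`), so `V = S`. -/
def KL3_stmt : Prop := ∀ (l : ℕ) [Fact l.Prime] (V : Type) [AddCommGroup V] [Module ℚ_[l] V]
  [Module ℤ_[l] V] [IsScalarTower ℤ_[l] ℚ_[l] V] (T : Submodule ℤ_[l] V), IsLat l T →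
  ∀ (π : V →ₗ[ℚ_[l]] V) (k : ℕ), (∀ t ∈ T, π t ∈ T) →
  (∀ t ∈ T, ∃ t' ∈ T, (π ^ k) t = (l : ℚ_[l]) • t') → ∀ S : Submodule ℚ_[l] V,
  (∀ s ∈ S, π s ∈ S) → (∀ t ∈ T, ∃ s ∈ T, s ∈ S ∧ ∃ t' ∈ T, t = s + π t') → S = ⊤

/-- `A = log h`: `h ≡ 1` modulo `l` on `T` and `h^(l^s) = 1 + l^s A` modulo `l^(2s)` -/
structure IsLog {l : ℕ} [Fact l.Prime] {V : Type} [AddCommGroup V] [Module ℚ_[l] V]
    [Module ℤ_[l] V] [IsScalarTower ℤ_[l] ℚ_[l] V] (T : Submodule ℤ_[l] V) (h A : V →ₗ[ℚ_[l]] V) :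
    Prop where
  one : ∀ t ∈ T, ∃ t' ∈ T, h t = t + (l : ℚ_[l]) • t'
  log : ∀ s : ℕ, ∀ t ∈ T, ∃ t' ∈ T,
    (h ^ l ^ s) t = t + (l : ℚ_[l]) ^ s • A t + ((l : ℚ_[l]) ^ s) ^ 2 • t'

/-- KL4: the logarithm exists. `A_s = (h^(l^s) - 1) / l^s`; `A_(s+1) - A_s = ∑_(j ≥ 2) binom(l, j) l^(s j - s - 1) A_s^j` maps `T` to `l^(s+1) T` (`l` odd, `A_s T ⊂ l T`);
limits: `T` is complete (finitely generated), or the limit in the finite dimensional space `V` (choose a basis of `T`). The last property: limits.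
Last but one: `C = h - 1`-invariant subspaces: a subspace stable under `h` is stable under `A`. -/
def KL4_stmt : Prop := ∀ (l : ℕ) [Fact l.Prime] (V : Type) [AddCommGroup V] [Module ℚ_[l] V]
  [Module ℤ_[l] V] [IsScalarTower ℤ_[l] ℚ_[l] V] (T : Submodule ℤ_[l] V), IsLat l T → l ≠ 2 →
  ∀ h : V →ₗ[ℚ_[l]] V, (∀ t ∈ T, ∃ t' ∈ T, h t = t + (l : ℚ_[l]) • t') →
  ∃ A : V →ₗ[ℚ_[l]] V, IsLog T h A ∧ (∀ t ∈ T, ∃ t' ∈ T, A t = (l : ℚ_[l]) • t') ∧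
    (∀ S : Submodule ℚ_[l] V, (∀ s ∈ S, h s ∈ S) → ∀ s ∈ S, A s ∈ S) ∧
    ∀ B : V →ₗ[ℚ_[l]] V, B ∘ₗ h = h ∘ₗ B → B ∘ₗ A = A ∘ₗ B

/-- KL5: a class killed by `log h` is fixed by `h`. `Λ` = the `ℤ_l`-submodule of the exterior algebra spanned by the products of elements of `T`: finitely generated
(`T` has a basis; or: the image of the exterior algebra of `T`), so `⋂ l^s Λ = 0`; `U = ExteriorAlgebra.map h`. On products of elements of `T`: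
`U^(l^s) = 1 + l^s δ` modulo `l^(2s) Λ` (IsLog). After scaling `X ∈ Λ`. `δ X = 0`, so `(U^(l^s) - 1) X ∈ l^(2s) Λ`. And
`U^(l^s) - 1 = W_s (U - 1)`, `W_s = ∑_(k < l^s) U^k = l^s (1 + l M)`, `M Λ ⊂ Λ` (induction on `s`: `∑_(i < l) H^i = l (1 + l M)` for `H ≡ 1` modulo `l`, `l` odd).
So `(1 + l M) (U - 1) X ∈ l^s Λ`, `(U - 1) X ∈ l^s Λ` for all `s`. -/
def KL5_stmt : Prop := ∀ (l : ℕ) [Fact l.Prime] (V : Type) [AddCommGroup V] [Module ℚ_[l] V]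
  [Module ℤ_[l] V] [IsScalarTower ℤ_[l] ℚ_[l] V] (T : Submodule ℤ_[l] V), IsLat l T → l ≠ 2 →
  ∀ h A : V →ₗ[ℚ_[l]] V, IsLog T h A →
  ∀ δ : ExteriorAlgebra ℚ_[l] V →ₗ[ℚ_[l]] ExteriorAlgebra ℚ_[l] V,
    (∀ v, δ (ExteriorAlgebra.ι ℚ_[l] v) = ExteriorAlgebra.ι ℚ_[l] (A v)) →
    (∀ x y, δ (x * y) = δ x * y + x * δ y) →
  ∀ X : ExteriorAlgebra ℚ_[l] V, δ X = 0 → ExteriorAlgebra.map h X = X

/-- KL6: `tr (log h) = 0` if `det h = 1`. `E` a finite extension of `ℚ_l`; choose a basis of `V` over `E`; the matrices of `A_s = (h^(l^s) - 1) / l^s` have bounded entries (with respect to a basis of `E` over `ℚ_l`; they are bounded on `T`)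
and tend to the matrix of `A`; `1 = det(1 + l^s A_s) = 1 + l^s tr(A_s) + O(l^(2s))`, so `tr(A_s) → 0`. -/
def KL6_stmt : Prop := ∀ (l : ℕ) [Fact l.Prime] (E V : Type) [Field E] [Algebra ℚ_[l] E]
  [FiniteDimensional ℚ_[l] E] [AddCommGroup V] [Module ℚ_[l] V] [Module E V]
  [IsScalarTower ℚ_[l] E V] [FiniteDimensional E V] [Module ℤ_[l] V] [IsScalarTower ℤ_[l] ℚ_[l] V]
  (T : Submodule ℤ_[l] V), IsLat l T → ∀ h A : V →ₗ[E] V,
  IsLog T (h.restrictScalars ℚ_[l]) (A.restrictScalars ℚ_[l]) → LinearMap.det h = 1 →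
  LinearMap.trace E V A = 0

/-- KL7: powers. If `h` and its inverse preserve a lattice `T` then `h^M ≡ 1` modulo `l` on `T` for some `M > 0` (`T ⧸ l T` is finite). -/
def KL7_stmt : Prop := ∀ (l : ℕ) [Fact l.Prime] (V : Type) [AddCommGroup V] [Module ℚ_[l] V]
  [Module ℤ_[l] V] [IsScalarTower ℤ_[l] ℚ_[l] V] (T : Submodule ℤ_[l] V), IsLat l T →
  ∀ h : V ≃ₗ[ℚ_[l]] V, (∀ t, t ∈ T ↔ h t ∈ T) →
  ∃ M : ℕ, 0 < M ∧ ∀ t ∈ T, ∃ t' ∈ T, (h.toLinearMap ^ M) t = t + (l : ℚ_[l]) • t'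

/-! ## KQ. Dedekind domains -/

/-- KQ1: every class contains an integral ideal prime to `J`. Let `I'` be in the inverse class; by the Chinese remainder theorem there is `b ∈ I'` not in
`I' P` for the finitely many primes `P` containing `J`; `(b) = I' I`. (Perhaps in Mathlib.) -/
def KQ1_stmt : Prop := ∀ (R : Type) [CommRing R] [IsDomain R] [IsDedekindDomain R] (J : Ideal R),
  J ≠ ⊥ → ∀ c : ClassGroup R, ∃ I : nonZeroDivisors (Ideal R), ClassGroup.mk0 I = c ∧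
    (I : Ideal R) ⊔ J = ⊤

/-! ## KI. Complex tori -/

/-- KI1: classes of type `(a, a)`, generalisation of `FJ.F2_stmt`. In coordinates `z_j = w_j`, `conj w_j` (`KND`, `KHP` of SpecP of project sj, as in the proof of
`FJ.F2`: a class is determined by the values of the determinants of the coordinates): the coordinate with `m_j` factors `w_j` and `m'_j` factors `conj w_j` has
`T`-eigenvalue `∏ ι(x_j)^(m_j) ι(x'_j)^(m'_j)` and is multiplied by `i ∑ θ_j (m_j - m'_j)` by `δ`. If it does not vanish on `X`, then `∑ θ_j (m_j - m'_j) = 0` for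
all `θ ∈ Θ` and `∏ x_j^(m_j) x'_j^(m'_j) = p^(ν a)` (`ι` is injective), so `ν ∑ m_j = ∑ (v_j m_j + v'_j m'_j) = ν a` (`p` is not a unit of `O`, `p ≠ 0`), so `∑ m_j = a`,
`∑ m'_j = a`, and `rot t` acts on the coordinate as `exp(i t (∑ m_j - ∑ m'_j)) = 1`. -/
def KI1_stmt : Prop := ∀ (I : Type) [Fintype I] (ι : Om →+* ℂ) (O : ValuationSubring Om)
  (p ν : ℕ) (x x' : I → Om) (v v' : I → ℕ) (T : (I → ℂ) →ₗ[ℂ] (I → ℂ)) (Θ : Set (I → ℝ)),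
  p ≠ 0 → rs O (p : O) = 0 → 0 < ν → (∀ w j, T w j = ι (x j) * w j) →
  (∀ j, conj (ι (x j)) = ι (x' j)) →
  (∀ j, ∃ y : O, IsUnit y ∧ x j = (p : Om) ^ v j * y) →
  (∀ j, ∃ y : O, IsUnit y ∧ x' j = (p : Om) ^ v' j * y) →
  (∀ m m' : I → ℕ, (∀ θ ∈ Θ, ∑ j, θ j * ((m j : ℝ) - (m' j : ℝ)) = 0) →
    ∑ j, (v j * m j + v' j * m' j) = ν * ∑ j, m j) →
  ∀ (a : ℕ) (X : ExteriorAlgebra ℝ (I → ℂ)),
  X ∈ (⋀[ℝ]^(2 * a) (I → ℂ) : Submodule ℝ (ExteriorAlgebra ℝ (I → ℂ))) →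
  ExteriorAlgebra.map (T.restrictScalars ℝ) X = (p : ℝ) ^ (ν * a) • X →
  (∀ θ ∈ Θ, ∀ δ : ExteriorAlgebra ℝ (I → ℂ) →ₗ[ℝ] ExteriorAlgebra ℝ (I → ℂ),
    (∀ w : I → ℂ, δ (ExteriorAlgebra.ι ℝ w) =
      ExteriorAlgebra.ι ℝ (fun j => (θ j : ℂ) * Complex.I * w j)) →
    (∀ y z, δ (y * z) = δ y * z + y * δ z) → δ X = 0) →
  ∀ t : ℝ, ExteriorAlgebra.map (rot (W := I → ℂ) t) X = X

end

end Pool.Agent.TK
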